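import Pool.Agent.H34.HK.Sing

/-!
# Normal Gorenstein surfaces of multiplicity `p` with `e_HK = s + (1 - s) e`

Let `p ≥ 3` be a prime.  The ring is `A = 𝔽_p[[x, y, z]] / (z ^ p - x ^ p y - x y ^ p)`, realised as the
subring `𝔽_p[[u ^ p, v ^ p]][u ^ p v + u v ^ p]` of `𝔽_p[[u, v]]` (`x = u ^ p`, `y = v ^ p`).
-/

set_option autoImplicit false

open Pool.Agent.H34.HK IsLocalRing

namespace Pool.Agent.Results.MP_be9c2a_al.NormalHypersurfaces

/-- For every prime `p ≥ 3` there is a normal Gorenstein F-finite local domain `A` of characteristic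
`p` and dimension two with `e_HK(A) = s(A) + (1 - s(A)) e(A)` and `e(A) = p ≥ 3`; moreover `s(A) = 0`
and `ℓ(A / 𝔪^[p^n]) = e(A) (p ^ n) ^ 2` for all `n ≥ 1`. -/
theorem result (p : ℕ) [Fact p.Prime] (_hp : 3 ≤ p) :
    ∃ (A : Type) (_ : CommRing A) (_ : IsNoetherianRing A) (_ : IsLocalRing A) (_ : CharP A p),
      IsDomain A ∧ IsIntegrallyClosed A ∧ (frobenius A p).Finite ∧ IsGorensteinLocal A ∧
      ringKrullDim A = 2 ∧
      (∃ e eHK s : ℝ, IsMultiplicity A 2 e ∧ IsHKMultiplicity A p 2 eHK ∧ IsFSignature A p 2 s ∧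
        eHK = s + (1 - s) * e ∧ e = p ∧ s = 0) ∧
      (∀ n ≥ 1, Module.length A (A ⧸ frobPow p n (maximalIdeal A)) = (p * (p ^ n) ^ 2 : ℕ)) := by
  refine ⟨AA p, inferInstance, inferInstance, inferInstance, inferInstance, inferInstance,
    inferInstance, frobA_finite, isGorenstein, dim_A, ⟨p, p, 0, hs_mult, hk, fSignature, by ring,
    rfl, rfl⟩, ?_⟩
  intro n hn
  obtain ⟨m, rfl⟩ := Nat.exists_eq_add_of_le' hn
  exact length_frobPow m

end Pool.Agent.Results.MP_be9c2a_al.NormalHypersurfaces
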