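import Pool.Agent.H56.FS.Final

/-!
# Gorenstein rings with `e_HK = s + (1 - s) e` and `s > 0` have multiplicity at most two

The definitions `IsGorensteinLocal`, `IsMultiplicity`, `IsHKMultiplicity`, `IsFSignature` (and `FStar`,
`frobPow`, `IsFreeRank`, `resDegree` used in them) are in `Pool/Agent/H34/HK/Defs.lean`.
-/

set_option autoImplicit false

open Pool.Agent.H34.HK IsLocalRing

universe u

namespace Pool.Agent.Results.MP_be9c2a_al.PositiveSignature

/-- Let `A` be an F-finite Gorenstein local ring of characteristic `p > 0` and dimension `d` with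
Hilbert-Samuel multiplicity `e(A) = e`, Hilbert-Kunz multiplicity `eHK` and F-signature `s`. If
`s > 0` and `eHK = s + (1 - s) e`, then `e ≤ 2`. -/
theorem result (p : ℕ) [Fact p.Prime] (A : Type u) [CommRing A] [IsNoetherianRing A]
    [IsLocalRing A] [CharP A p] (_hF : (frobenius A p).Finite) (hG : IsGorensteinLocal A)
    (d : ℕ) (hd : ringKrullDim A = d) (e eHK s : ℝ) (he : IsMultiplicity A d e)
    (hHK : IsHKMultiplicity A p d eHK) (hs : IsFSignature A p d s) (hpos : 0 < s)
    (heq : eHK = s + (1 - s) * e) : e ≤ 2 :=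
  Pool.Agent.H56.FS.main p A hG d hd e eHK s he hHK hs hpos heq

end Pool.Agent.Results.MP_be9c2a_al.PositiveSignature
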